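import Pool.Agent.FK93.FinalD

/-!
# For each `n`, few denominators `m` can fail
-/

set_option autoImplicit false

namespace Pool.Agent.Results.MP_0d4141_nt.FewDenominators

/-- For every `ε > 0` there is `C` such that for all `n ≥ 1` and all real `y ≥ 1`, the number of
`m ≥ y` with `0 < m < n`, `m ∤ n` such that none of `⌊n/m⌋, ⌊2n/m⌋, …, ⌊(n-1)n/m⌋` is prime is at
most `C n^(1+ε) / y`. -/
theorem result : ∀ ε : ℝ, 0 < ε → ∃ C : ℝ, 0 < C ∧ ∀ n : ℕ, 1 ≤ n → ∀ y : ℝ, 1 ≤ y →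
    ({m : ℕ | y ≤ (m : ℝ) ∧ 0 < m ∧ m < n ∧ ¬ m ∣ n ∧
      ∀ k : ℕ, 1 ≤ k → k ≤ n - 1 → ¬ (k * n / m).Prime}.ncard : ℝ) ≤
        C * (n : ℝ) ^ (1 + ε) / y := by
  classical
  intro ε hε
  obtain ⟨C, hC, h⟩ := FK93.partA_strong hε
  refine ⟨C, hC, fun n hn y hy => ?_⟩
  refine le_trans (le_of_eq ?_) (h n hn y hy)
  rw [← Set.ncard_coe_finset]
  congr 2
  ext m
  simp only [Set.mem_setOf_eq, Finset.coe_filter, Finset.mem_range]
  constructor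
  · rintro ⟨h1, h2, h3, h4, h5⟩
    exact ⟨h3, h1, h2, h3, h4, fun k hk1 hk2 => h5 k hk1 (by omega)⟩
  · rintro ⟨_, h1, h2, h3, h4, h5⟩
    exact ⟨h1, h2, h3, h4, fun k hk1 hk2 => h5 k hk1 (by omega)⟩

end Pool.Agent.Results.MP_0d4141_nt.FewDenominators
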