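import Pool.Agent.FK93.FinalC

/-!
# Few pairs `(n, m)` can fail
-/

set_option autoImplicit false

namespace Pool.Agent.Results.MP_0d4141_nt.FewPairs

/-- For every `ε > 0` there is `C` such that for all `N ≥ 1` the number of pairs `(n, m)` with
`N ≥ n > m > 0`, `m ∤ n` such that none of `⌊n/m⌋, ⌊2n/m⌋, …, ⌊(n-1)n/m⌋` is prime is at
most `C N^(1+ε)`. -/
theorem result : ∀ ε : ℝ, 0 < ε → ∃ C : ℝ, 0 < C ∧ ∀ N : ℕ, 1 ≤ N →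
    ({p : ℕ × ℕ | p.1 ≤ N ∧ 0 < p.2 ∧ p.2 < p.1 ∧ ¬ p.2 ∣ p.1 ∧
      ∀ k : ℕ, 1 ≤ k → k ≤ p.1 - 1 → ¬ (k * p.1 / p.2).Prime}.ncard : ℝ) ≤
        C * (N : ℝ) ^ (1 + ε) := by
  classical
  intro ε hε
  obtain ⟨C, hC, h⟩ := FK93.partB_final hε
  refine ⟨C, hC, fun N hN => ?_⟩
  refine le_trans (le_of_eq ?_) (h N hN)
  rw [← Set.ncard_coe_finset]
  congr 2
  ext p
  simp only [Set.mem_setOf_eq, Finset.mem_coe, FK93.mem_All]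
  constructor
  · rintro ⟨h1, h2, h3, h4, h5⟩
    exact ⟨⟨by omega, h1⟩, ⟨by omega, by omega⟩, h2, h3, h4, fun k hk1 hk2 => h5 k hk1 (by omega)⟩
  · rintro ⟨⟨_, h1⟩, _, h2, h3, h4, h5⟩
    exact ⟨h1, h2, h3, h4, fun k hk1 hk2 => h5 k hk1 (by omega)⟩

end Pool.Agent.Results.MP_0d4141_nt.FewPairs
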